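import Pool.Agent.C4K.StMul

/-!
# Squad C4K: module DUP
-/

set_option autoImplicit false

namespace Pool.Agent.C4K.H32

open Finset Cl
open scoped Classical

/-- A maximal family of disjoint pairs with the same label. -/
theorem match_lemma {ι L : Type} [Fintype ι] [DecidableEq ι] (R : ι → L → Prop)
    (hu : ∀ c y y', R c y → R c y' → y = y') (m : ℕ)
    (hno : ¬ ∃ B : Finset (ι × ι), B.card = m ∧
      (∀ a ∈ B, a.1 ≠ a.2 ∧ ∃ y, R a.1 y ∧ R a.2 y) ∧
      ∀ a ∈ B, ∀ b ∈ B, a ≠ b → Disjoint ({a.1, a.2} : Finset ι) {b.1, b.2}) :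
    (univ.filter fun c => ∃ c' y, c' ≠ c ∧ R c y ∧ R c' y).card ≤ 3 * m := by
  let G : Finset (ι × ι) → Prop := fun B =>
    (∀ a ∈ B, a.1 ≠ a.2 ∧ ∃ y, R a.1 y ∧ R a.2 y) ∧
      ∀ a ∈ B, ∀ b ∈ B, a ≠ b → Disjoint ({a.1, a.2} : Finset ι) {b.1, b.2}
  have h0 : ((univ : Finset (Finset (ι × ι))).filter G).Nonempty := by
    refine ⟨∅, ?_⟩
    rw [Finset.mem_filter]
    refine ⟨Finset.mem_univ _, ?_, ?_⟩
    · intro a ha
      exact absurd ha (Finset.notMem_empty a)
    · intro a ha
      exact absurd ha (Finset.notMem_empty a)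
  obtain ⟨B, hBm, hmax⟩ := Finset.exists_max_image _ (fun B => B.card) h0
  obtain ⟨-, hB1, hB2⟩ := Finset.mem_filter.1 hBm
  have hBlt : B.card < m := by
    by_contra hcon
    push Not at hcon
    obtain ⟨B', hB', hB'c⟩ := Finset.exists_subset_card_eq hcon
    exact hno ⟨B', hB'c, fun a ha => hB1 a (hB' ha), fun a ha b hb => hB2 a (hB' ha) b (hB' hb)⟩
  let U : Finset ι := B.biUnion fun a => {a.1, a.2}
  have hU : U.card ≤ B.card * 2 :=
    Finset.card_biUnion_le_card_mul _ _ _ fun a _ => Finset.card_le_two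
  -- a pair outside of `U` can be added
  have hadd : ∀ c c' y, c ∉ U → c' ∉ U → c' ≠ c → R c y → R c' y → False := by
    intro c c' y hc hc' hne h1 h2
    have hcc : (c, c') ∉ B := by
      intro h
      apply hc
      rw [Finset.mem_biUnion]
      exact ⟨_, h, by simp⟩
    have hG : insert (c, c') B ∈ (univ : Finset (Finset (ι × ι))).filter G := by
      rw [Finset.mem_filter]
      have hdis : ∀ b ∈ B, Disjoint ({c, c'} : Finset ι) {b.1, b.2} := by
        intro b hb
        rw [Finset.disjoint_left]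
        intro x hx hx'
        have hxU : x ∈ U := by
          rw [Finset.mem_biUnion]
          exact ⟨b, hb, hx'⟩
        rw [Finset.mem_insert, Finset.mem_singleton] at hx
        rcases hx with rfl | rfl
        · exact hc hxU
        · exact hc' hxU
      refine ⟨Finset.mem_univ _, ?_, ?_⟩
      · intro a ha
        rw [Finset.mem_insert] at ha
        rcases ha with rfl | ha
        · exact ⟨hne.symm, y, h1, h2⟩
        · exact hB1 a ha
      · intro a ha b hb hab
        rw [Finset.mem_insert] at ha hb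
        rcases ha with rfl | ha
        · rcases hb with rfl | hb
          · exact absurd rfl hab
          · exact hdis b hb
        · rcases hb with rfl | hb
          · exact (hdis a ha).symm
          · exact hB2 a ha b hb hab
    have := hmax _ hG
    rw [Finset.card_insert_of_notMem hcc] at this
    omega
  let S : Finset ι := univ.filter fun c => ∃ c' y, c' ≠ c ∧ R c y ∧ R c' y
  have hS : ∀ c ∈ S \ U, ∃ a ∈ B, ∃ y, R c y ∧ R a.1 y := by
    intro c hc
    rw [Finset.mem_sdiff, Finset.mem_filter] at hc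
    obtain ⟨⟨-, c', y, hne, h1, h2⟩, hcU⟩ := hc
    by_cases hc'U : c' ∈ U
    · rw [Finset.mem_biUnion] at hc'U
      obtain ⟨a, ha, hca⟩ := hc'U
      obtain ⟨-, z, hz1, hz2⟩ := hB1 a ha
      refine ⟨a, ha, y, h1, ?_⟩
      rw [Finset.mem_insert, Finset.mem_singleton] at hca
      rcases hca with rfl | rfl
      · exact h2
      · rw [hu _ _ _ h2 hz2]
        exact hz1
    · exact absurd (hadd c c' y hcU hc'U hne h1 h2) id
  choose! g hg1 hg2 using hS
  have hSU : (S \ U).card ≤ B.card := by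
    apply Finset.card_le_card_of_injOn g (fun c hc => hg1 c hc)
    intro c hc d hd hcd
    by_contra hne
    obtain ⟨y, hy1, hy2⟩ := hg2 c hc
    obtain ⟨z, hz1, hz2⟩ := hg2 d hd
    have hcU := (Finset.mem_sdiff.1 hc).2
    have hdU := (Finset.mem_sdiff.1 hd).2
    have hyz : y = z := by
      rw [hcd] at hy2
      exact hu _ _ _ hy2 hz2
    rw [← hyz] at hz1
    exact hadd c d y hcU hdU (fun h => hne h.symm) hy1 hz1
  have h1 : S ⊆ U ∪ (S \ U) := by
    intro x hx
    rw [Finset.mem_union, Finset.mem_sdiff]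
    by_cases h : x ∈ U
    · exact Or.inl h
    · exact Or.inr ⟨hx, h⟩
  have h2 := (Finset.card_le_card h1).trans (Finset.card_union_le _ _)
  show S.card ≤ 3 * m
  omega

section lnk

variable {V : Type} [Fintype V] {C : Cl V} {T : ℕ}

/-- two walks through a vertex of multiplicity one are equal -/
theorem eq_of_mult {om : C.Wk T → Bool} {u : V} (h : mult om u = 1) {w w' : C.Wk T}
    (h1 : om w = true) (h1' : om w' = true) (h2 : w.has u) (h2' : w'.has u) : w = w' := by
  unfold mult at h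
  rw [Finset.card_eq_one] at h
  obtain ⟨a, ha⟩ := h
  have hw : w ∈ ({a} : Finset (C.Wk T)) := by
    rw [← ha, Finset.mem_filter]
    exact ⟨Finset.mem_univ _, h1, h2⟩
  have hw' : w' ∈ ({a} : Finset (C.Wk T)) := by
    rw [← ha, Finset.mem_filter]
    exact ⟨Finset.mem_univ _, h1', h2'⟩
  rw [Finset.mem_singleton] at hw hw'
  rw [hw, hw']

theorem lnk_out {om : C.Wk T → Bool} {v y y' : V} (h : lnk om v y) (h' : lnk om v y') :
    y = y' := by
  obtain ⟨w, hw, i, hi, hv, hy, hm, -⟩ := h
  obtain ⟨w', hw', i', hi', hv', hy', -, -⟩ := h'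
  have hww : w = w' := eq_of_mult hm hw hw' ⟨i, hi.le, hv⟩ ⟨i', hi'.le, hv'⟩
  subst hww
  have hii : i = i' := w.2.inj i i' hi.le hi'.le (hv.trans hv'.symm)
  subst hii
  unfold Wk.hd at hy hy'
  rw [hy] at hy'
  exact Option.some.inj hy'

theorem lnk_in (hf : PInj C.f) {om : C.Wk T → Bool} {v x x' : V} (h : lnk om x v)
    (h' : lnk om x' v) : x = x' := by
  obtain ⟨w, hw, i, hi, hx, hv, -, hm⟩ := h
  obtain ⟨w', hw', i', hi', hx', hv', -, -⟩ := h'
  have h1 : w.n (i + 1) = w'.n (i' + 1) := hf _ _ _ hv hv'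
  have hww : w = w' := eq_of_mult hm hw hw' ⟨i + 1, hi, rfl⟩ ⟨i' + 1, hi', h1.symm⟩
  subst hww
  have hii : i + 1 = i' + 1 := w.2.inj _ _ hi hi' h1
  have hii' : i = i' := by omega
  subst hii'
  exact hx.symm.trans hx'

end lnk

/-- DUP -/
theorem dup : DUPStmt := by
  intro V _ n C d T hC om v m hm
  refine ⟨fun h => ?_, fun h => ?_⟩
  · refine le_trans (Finset.card_le_card ?_)
      (match_lemma (fun c y => lnk (om c) v y) (fun c y y' => lnk_out) m h)
    intro x hx
    exact (@Finset.mem_filter _ _ (_) _ _).2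
      ⟨Finset.mem_univ _, ((@Finset.mem_filter _ _ (_) _ _).1 hx).2⟩
  · refine le_trans (Finset.card_le_card ?_)
      (match_lemma (fun c x => lnk (om c) x v) (fun c x x' => lnk_in (hC c).inj) m h)
    intro x hx
    exact (@Finset.mem_filter _ _ (_) _ _).2
      ⟨Finset.mem_univ _, ((@Finset.mem_filter _ _ (_) _ _).1 hx).2⟩

end Pool.Agent.C4K.H32
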