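import Pool.Agent.C4K.StMul

/-!
# Squad C4K: module PRC
-/

set_option autoImplicit false

namespace Pool.Agent.C4K.H32

open Finset Cl
open scoped Classical

theorem qq_prob {W : Type} {p : ℝ} (h0 : 0 ≤ p) (h1 : p ≤ 1) :
    LLLA.IsProb (W := W) (α := fun _ => Bool) (qq p) := by
  refine ⟨fun w b => ?_, fun w => ?_⟩
  · unfold qq
    split_ifs <;> linarith
  · simp [qq]

/-- PRC -/
theorem prc : PRCStmt := by
  intro V _ n C T p hp0 hp1 X μ m hm hμ c om
  have hq : ∀ c : Fin n, LLLA.IsProb (W := (C c).Wk T) (α := fun _ => Bool) (qq p) := fun c =>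
    qq_prob hp0 hp1
  have hP := LLLA.cwt_prob (K := fun c => (C c).Wk T) (β := fun _ => Bool) (q := fun _ => qq p) hq
  have hr0 : ∀ c : Fin n, 0 ≤ (C c).Pr T p (X c) := fun c => LLLA.Pr_nonneg (hq c) _
  have key := LLLA.Pr_items' hP (J := Fin n) (fun a => {a})
    (fun a => {om : Cf C T | om a ∈ X a})
    (fun a => LLLA.dep_class (K := fun c => (C c).Wk T) (β := fun _ => Bool) a (X a))
    (fun a => (C a).Pr T p (X a))
    (fun a => le_of_eq (LLLA.Pr_class (K := fun c => (C c).Wk T) (β := fun _ => Bool)
      (q := fun _ => qq p) hq a (X a))) hm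
  refine le_trans ?_ (key.trans ?_)
  · unfold PC
    apply LLLA.Pr_mono hP
    intro et het
    have het' : m + 1 ≤ (univ.filter fun c' => fixc c om et c' ∈ X c').card := het
    have h1 : m ≤ ((univ.filter fun c' => fixc c om et c' ∈ X c').erase c).card := by
      have := Finset.pred_card_le_card_erase (s := univ.filter fun c' => fixc c om et c' ∈ X c')
        (a := c)
      omega
    obtain ⟨B, hB, hBc⟩ := Finset.exists_subset_card_eq h1
    refine ⟨B, hBc, ?_, ?_⟩
    · intro a _ b _ hab
      exact Finset.disjoint_singleton.2 hab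
    · intro a ha
      have h2 := hB ha
      rw [Finset.mem_erase, Finset.mem_filter] at h2
      obtain ⟨h3, -, h4⟩ := h2
      have h5 : fixc c om et a = et a := by
        unfold fixc LLLA.mix
        rw [if_neg]
        simpa using h3
      rw [h5] at h4
      exact h4
  · apply pow_le_pow_left₀
    · exact div_nonneg (mul_nonneg (Real.exp_pos 1).le (Finset.sum_nonneg fun a _ => hr0 a))
        (Nat.cast_nonneg m)
    · apply div_le_div_of_nonneg_right _ (Nat.cast_nonneg m)
      exact mul_le_mul_of_nonneg_left hμ (Real.exp_pos 1).le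

end Pool.Agent.C4K.H32
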